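import Mathlib
import Pool.Agent.Lib.MP_2a816b_nt.Defs
import Pool.Agent.Lib.MP_2a816b_nt.BH.Fin

/-!
# The variance of primes in short intervals: a lower bound with a constant beyond one half
-/

namespace Pool.Agent.Results.MP_2a816b_nt.BeyondHalf

open Pool.Agent.Lib.MP_2a816b_nt

/-- Let `V(X,H) = (1/X) ∫_1^X |ψ(x;H) - H|² dx`. There are absolute constants `δ, ε₀, C₀ > 0` and
`X₀` such that `V(X,H) ≥ (1/2 + δ) H log X` for all `X ≥ X₀` and `C₀ log X ≤ H ≤ X ^ ε₀`. -/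
theorem result : ∃ δ ε₀ C₀ : ℝ, 0 < δ ∧ 0 < ε₀ ∧ 0 < C₀ ∧ ∃ X₀ : ℝ, ∀ X : ℝ, X₀ ≤ X →
    ∀ H : ℝ, C₀ * Real.log X ≤ H → H ≤ X ^ ε₀ →
      (1 / 2 + δ) * H * Real.log X ≤ meanSquare X H :=
  BH.beyond_half

end Pool.Agent.Results.MP_2a816b_nt.BeyondHalf
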