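import Mathlib
import Pool.Agent.Lib.MP_2a816b_nt.Defs
import Pool.Agent.Lib.MP_2a816b_nt.Integral
import Pool.Agent.Lib.MP_2a816b_nt.FR4

/-!
# Goldston's lower bound for the variance of primes in short intervals, unconditionally
-/

namespace Pool.Agent.Results.MP_2a816b_nt.FullRangeVarianceLowerBound

open Pool.Agent.Lib.MP_2a816b_nt

/-- Let `V(X,H) = (1/X) ∫_1^X |ψ(x;H) - H|² dx`. For every `ε > 0` there are `c > 0` and `X₀` such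
that for all `X ≥ X₀`:
* `V(X,H) ≥ (1/2 - ε) H log(X/H³)` if `X^ε ≤ H ≤ X^(1/3-ε)`,
* `V(X,H) ≥ c H log X` if `1 ≤ H ≤ X^(1/3-ε)`. -/
theorem result (ε : ℝ) (hε : 0 < ε) :
    ∃ c : ℝ, 0 < c ∧ ∃ X₀ : ℝ, ∀ X : ℝ, X₀ ≤ X → ∀ H : ℝ,
      (X ^ ε ≤ H → H ≤ X ^ (1 / 3 - ε) →
        (1 / 2 - ε) * H * Real.log (X / H ^ 3) ≤ meanSquare X H) ∧
      (1 ≤ H → H ≤ X ^ (1 / 3 - ε) → c * H * Real.log X ≤ meanSquare X H) := by
  obtain ⟨c, hc, X1, h1⟩ := meanSquare_lower ε hε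
  obtain ⟨X2, h2⟩ := full_final ε hε
  refine ⟨c, hc, max X1 X2, ?_⟩
  intro X hX H
  have hX1 : X1 ≤ X := (le_max_left _ _).trans hX
  have hX2 : X2 ≤ X := (le_max_right _ _).trans hX
  exact ⟨fun h3 h4 => h2 X hX2 H h3 h4, fun h3 h4 => h1 X hX1 H h3 h4⟩

end Pool.Agent.Results.MP_2a816b_nt.FullRangeVarianceLowerBound
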