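import Pool.Agent.Lib.MP_2a816b_nt.TA.HGa
import Pool.Agent.Lib.MP_2a816b_nt.TA.HCv
import Pool.Agent.Lib.MP_2a816b_nt.TA.HRHu
import Pool.Agent.Lib.MP_2a816b_nt.TA.HFinB
import Pool.Agent.Lib.MP_2a816b_nt.TA.HFinD

/-!
# The refined conjecture on the variance of primes in short intervals is one-sided

`VV X H = (1/X) ∫_H^X (ψ(x; H) - H)² dx`, and `EE a T = V/H - (log T - γ - log 2π)` at `X = T^a`, `H = T^(a-1)`.
The lower half of the refined conjecture holds in mean over the exponent, with its secondary constant and with no hypothesis;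
hence the upper half in mean implies the Riemann hypothesis, the two-sided statement in mean, and the asymptotic of Q1 at every
point.
-/

open Filter MeasureTheory Topology

namespace Pool.Agent.Results.MP_2a816b_nt.UpperHalf

open Pool.Agent.Lib.MP_00e05b_nt Pool.Agent.Lib.MP_2a816b_nt.PV Pool.Agent.Lib.MP_2a816b_nt.TA

/-- (1) Lower half in mean, no hypothesis. (2) If the upper half holds in `L¹` mean over the exponent, for exponents up to
`(log T)^κ`, with an error `o((log T)^(-ρ))`, then the Riemann hypothesis holds, the two-sided statement holds in `L¹` mean with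
the same error, `V` has the conjectured asymptotic at every point of the range `log X ≤ (log (X/H))^(1 + κ')`, `H ≥ 2`, and almost
all zeros on the critical line are simple and separated by more than `(log T)^(-(1 + κ'))`. -/
theorem result :
    (∃ C T0 : ℝ, ∀ T : ℝ, T0 ≤ T → ∀ A : ℝ, 2 ≤ A → A ≤ T ^ (1 / 9 : ℝ) →
      -(Real.log T / (6 * A ^ 2)) - C * (1 / Real.log T + 1 / A) ≤
        ∫ a in Set.Ioi (1 : ℝ), Real.exp (-(a ^ 2 / (2 * A ^ 2))) * EE a T) ∧
    ∀ κ ρ : ℝ, 0 ≤ ρ → ρ < 1 → 1 + ρ < 2 * κ →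
      Tendsto (fun T : ℝ => Real.log T ^ ρ * ∫ a in (1 : ℝ)..(Real.log T ^ κ), max (EE a T) 0) atTop (𝓝 0) →
      RiemannHypothesis ∧ ∀ κ' : ℝ, 1 + ρ < 2 * κ' → κ' < κ →
        Tendsto (fun T : ℝ => Real.log T ^ ρ * ∫ a in (1 : ℝ)..(Real.log T ^ κ'), |EE a T|) atTop (𝓝 0) ∧
        (∀ ε : ℝ, 0 < ε → ∃ L0 : ℝ, ∀ X H : ℝ, 2 ≤ H → H ≤ X → L0 ≤ Real.log (X / H) →
          Real.log X ≤ Real.log (X / H) ^ (1 + κ') →
          |VV X H - H * (Real.log (X / H) - (Real.eulerMascheroniConstant + Real.log (2 * Real.pi)))| ≤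
            ε * H * Real.log (X / H) ^ (1 - ρ / 3)) ∧
        (∀ ε : ℝ, 0 < ε → ∀ᶠ T : ℝ in atTop,
          (∑ x ∈ ordinates T, ∑ y ∈ ordinates T,
              if |x - y| ≤ Real.log T ^ (-(1 + κ')) then (mult x : ℝ) * (mult y : ℝ) else 0) -
            ∑ x ∈ ordinates T, (mult x : ℝ) ≤ ε * T * Real.log T ^ (-(κ' + ρ))) := by
  refine ⟨gaussU, fun κ ρ hρ hρ1 h1 h => ?_⟩
  have hP := PU_to h
  refine ⟨rhuH (by linarith) hρ hP, fun κ' h2 h3 => ?_⟩
  exact ⟨finCH hρ hρ1 h2 h3 hP, finBH hρ hρ1 h2 h3 hP, finDH hρ hρ1 h2 h3 hP⟩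

end Pool.Agent.Results.MP_2a816b_nt.UpperHalf
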