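import Mathlib
import Pool.Agent.Lib.MP_2a816b_nt.Defs
import Pool.Agent.Lib.MP_2a816b_nt.PV.Defs
import Pool.Agent.Lib.MP_2a816b_nt.LM.Rate
import Pool.Agent.Lib.MP_2a816b_nt.SW.Barr
import Pool.Agent.Lib.MP_00e05b_nt.Bar.FIN

/-!
Means of the variance of primes in short intervals, normalised by its conjectured size, over windows of exponents along every
ray `X / H = T`.
-/

open Filter MeasureTheory

namespace Pool.Agent.Results.MP_2a816b_nt.WindowMeans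

open Pool.Agent.Lib.MP_2a816b_nt.PV

/-- `VV X H = (1/X) ∫_H^X (ψ(x;H) - H)² dx` and `RR α T = VV X H / (H log (X/H))` at `X = T^α`, `H = T^(α-1)`.
(1) No hypothesis: there are `0 < δ < 1` and `b₀ ≥ 1`, with `b₀ = 1` if the Riemann Hypothesis holds, such that
`∫_b^(b+1-δ) RR α T dα ≥ δ` for all `b` in `[b₀, A]` and `T ≥ T₀(A)`.
(2) No hypothesis: for every `l > 1` there is `c > 0` such that `∫_b^(b+l) RR α T dα ≥ c` for all `b` in `[1, A]` and `T ≥ T₀(A)`.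
(3) For every `b ≥ 1` the mean `(2/l²) ∫_b^(b+l) (b + l - α) RR α T dα` is at least `1 - C/l` for `T` large, with no hypothesis, and at
most `4/3 + C/l` under the Riemann Hypothesis.
(4) No hypothesis: if `ζ(ρ) = 0`, `Re ρ > 1/2`, then for all `l > 0`, `ε > 0`: `∫_b^(b+l) RR α T dα ≥ T^((2 Re ρ - 1)(b + l) - 1 - ε)` for
all `b` in `[1, A]` and `T ≥ T₀(A)`. -/
theorem result :
    (∃ δ b₀ : ℝ, 0 < δ ∧ δ < 1 ∧ 1 ≤ b₀ ∧ (RiemannHypothesis → b₀ = 1) ∧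
      ∀ A : ℝ, ∃ T₀ : ℝ, ∀ T b : ℝ, T₀ ≤ T → b₀ ≤ b → b ≤ A → δ ≤ ∫ α in b..(b + 1 - δ), RR α T) ∧
    (∀ l : ℝ, 1 < l → ∃ c : ℝ, 0 < c ∧ ∀ A : ℝ, ∃ T₀ : ℝ, ∀ T b : ℝ, T₀ ≤ T → 1 ≤ b → b ≤ A →
      c ≤ ∫ α in b..(b + l), RR α T) ∧
    (∀ b : ℝ, 1 ≤ b → ∃ C : ℝ, ∀ l : ℝ, 1 ≤ l → ∀ᶠ T : ℝ in atTop,
      1 - C / l ≤ (2 / l ^ 2) * ∫ α in b..(b + l), (b + l - α) * RR α T) ∧
    (RiemannHypothesis → ∀ b : ℝ, 1 ≤ b → ∃ C : ℝ, ∀ l : ℝ, 1 ≤ l → ∀ᶠ T : ℝ in atTop,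
      (2 / l ^ 2) * ∫ α in b..(b + l), (b + l - α) * RR α T ≤ 4 / 3 + C / l) ∧
    (∀ ρ : ℂ, riemannZeta ρ = 0 → 1 / 2 < ρ.re → ∀ l ε A : ℝ, 0 < l → 0 < ε → ∃ T₀ : ℝ, ∀ T b : ℝ, T₀ ≤ T → 1 ≤ b → b ≤ A →
      T ^ ((2 * ρ.re - 1) * (b + l) - 1 - ε) ≤ ∫ α in b..(b + l), RR α T) :=
  ⟨Pool.Agent.Lib.MP_2a816b_nt.SW.short_windows Pool.Agent.Lib.MP_00e05b_nt.Bar.barrier,
    fun _ hl => Pool.Agent.Lib.MP_2a816b_nt.SW.unif hl,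
    fun _ hb => let ⟨C, _, h⟩ := Pool.Agent.Lib.MP_2a816b_nt.LM.lower_rate hb; ⟨C, h⟩,
    fun hRH _ hb => let ⟨C, _, h⟩ := Pool.Agent.Lib.MP_2a816b_nt.LM.upper_rate hRH hb; ⟨C, h⟩,
    fun _ hζ h1 _ _ A hl hε => Pool.Agent.Lib.MP_2a816b_nt.SW.sw_all hζ h1 hl hε A⟩

end Pool.Agent.Results.MP_2a816b_nt.WindowMeans
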